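import Pool.Agent.Q283.FG.Stm2
import Pool.Agent.Q153.JQ.ADJ0

/-! Project FG (helper283), job ADJ (helper252): the operators of several curves. Adapted from
`Pool.Agent.Q277.FT.adj`. -/

set_option autoImplicit false

namespace Pool.Agent.Q252.FG

open Pool.Agent.Q283.FG
open Pool.Agent.Q283.FT (U2)

theorem adj (hIRR : Pool.Agent.Q283.FG.S_IRR) (hISO : Pool.Agent.Q283.FG.S_ISO) :
    Pool.Agent.Q283.FG.S_ADJ := by
  intro f κ _ t₀ c w 𝓛 hinj hne
  have h := Pool.Agent.Q153.JQ.t_ADJ0 (Fin f) κ (fun _ => U2)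
    (fun k φ => (opS t₀ (c k) w φ : Module.End (ZMod 2) U2))
    (fun k => hIRR f t₀ (c k) w (hinj k).1 (hinj k).2.1 (hinj k).2.2.1 (hinj k).2.2.2)
    (fun k l hkl hg => hne k l hkl (hISO f t₀ (c k) (c l) w hg))
  unfold Q44.JQ.Adj2
  rw [← top_le_iff, ← h]
  refine Algebra.adjoin_mono ?_
  rintro _ ⟨φ, rfl⟩
  exact ⟨φ, rfl⟩

end Pool.Agent.Q252.FG
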