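import Pool.Agent.Q265.FT.LOK
import Pool.Agent.Q283.FG.Stm4

/-!
# Project FG (helper283), job LOK (helper252): the local data of a twist. Adapted from `Pool.Agent.Q265.FTL.lok`.
-/

set_option autoImplicit false

namespace Pool.Agent.Q252.FG

open NumberField IsDedekindDomain Filter Topology Finset WeierstrassCurve Module
open Pool.Agent.Q283.LQ (Sm Box Nest nS)
open Pool.Agent.Q7.LK
open Pool.Agent.Q283.FT (U2 om crv Rt twi df Cov HasN2 AX Gd LocP Dcl)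
open Pool.Agent.Q283.FG
open Pool.Agent.Q265.FTL (rt_twi df_twi df_ne sum_small nS_eq)

section

variable {F : Type} [Field F] [NumberField F]

/-- the number of the classes -/
theorem sum_valR {y : ℕ} (hy : 2 ≤ y) (hfin : {v : HeightOneSpectrum (𝓞 F) | Sm y v}.Finite)
    (hv : ∑ᶠ v : HeightOneSpectrum (𝓞 F), dv 2 v = Module.finrank ℚ F) :
    2 * (InfinitePlace.nrRealPlaces F + InfinitePlace.nrComplexPlaces F + nS F y) =
      ∑ᶠ v : {v : HeightOneSpectrum (𝓞 F) // Sm y v}, (dv 2 v.1 + 2) + InfinitePlace.nrRealPlaces F := by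
  rw [sum_small hfin (fun v => dv 2 v + 2), sum_add_distrib, sum_const, nS_eq hfin]
  have h1 : ∑ᶠ v : HeightOneSpectrum (𝓞 F), dv 2 v = ∑ v ∈ hfin.toFinset, dv 2 v := by
    refine finsum_eq_sum_of_support_subset _ fun v hv => ?_
    rw [Set.Finite.coe_toFinset]
    by_contra hns
    apply hv
    have h2 : dv 2 v = 0 := by
      unfold dv
      exact if_neg fun h2 => hns ⟨2, Nat.prime_two, hy, h2⟩
    exact h2
  rw [h1] at hv
  rw [hv, smul_eq_mul]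
  have h2 := NumberField.InfinitePlace.card_add_two_mul_card_eq_rank F
  omega

/-- squares do not change the symbol -/
theorem hb_sq (hB : S_BAS) {ζ : F} {t : HeightOneSpectrum (𝓞 F) → F → F → ZMod 2} {s : (F →+* ℝ) → F → F → ZMod 2}
    (ht : Hb ζ t s) (v : HeightOneSpectrum (𝓞 F)) {a D z : F} (ha : a ≠ 0) (hD : D ≠ 0) (hz : z ≠ 0) :
    t v a (D ^ 2 * z) = t v a z := by
  have : Fact (Nat.Prime 2) := ⟨Nat.prime_two⟩
  rw [ht.sym v a _ ha (mul_ne_zero (pow_ne_zero 2 hD) hz), ht.mul v _ z a (pow_ne_zero 2 hD) hz ha,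
    ht.pow v (D ^ 2) a ((hB 2 F v).2.2.1 D hD) ha, zero_add, ← ht.sym v a z ha hz]

/-- squares do not change the real symbol -/
theorem hbr_sq {ζ : F} {t : HeightOneSpectrum (𝓞 F) → F → F → ZMod 2} {s : (F →+* ℝ) → F → F → ZMod 2}
    (ht : Hb ζ t s) (φ : F →+* ℝ) {a D z : F} (ha : a ≠ 0) (hD : D ≠ 0) (hz : z ≠ 0) :
    s φ a (D ^ 2 * z) = s φ a z := by
  have hp : 0 < φ (D ^ 2) := by
    rw [map_pow]
    have h1 : φ D ≠ 0 := (map_ne_zero φ).2 hD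
    positivity
  rw [ht.rsym φ a _ ha (mul_ne_zero (pow_ne_zero 2 hD) hz), ht.rmul φ _ z a (pow_ne_zero 2 hD) hz ha,
    ht.rpos φ (D ^ 2) a hp ha, zero_add, ← ht.rsym φ a z ha hz]

end

theorem lok (hDJS : Pool.Agent.Q283.FG.S_DJS) (hCLE : Pool.Agent.Q283.FG.S_CLE) (hSBM : Pool.Agent.Q283.FG.S_SBM)
    (hCGE : Pool.Agent.Q283.FG.S_CGE) (hSNG : Pool.Agent.Q283.FG.S_SNG) (hTRS : Pool.Agent.Q283.FG.S_TRS)
    (hLCP : Pool.Agent.Q283.FG.S_LCP) (hISQ : Pool.Agent.Q283.FG.S_ISQ) (hIDE : Pool.Agent.Q283.FG.S_IDE)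
    (hVLR : Pool.Agent.Q283.FG.S_VLR) (hRLC : Pool.Agent.Q283.FG.S_RLC) (hRSQ : Pool.Agent.Q283.FG.S_RSQ)
    (hBAS : Pool.Agent.Q7.LK.S_BAS) : Pool.Agent.Q283.FG.S_LOK := by
  intro F _ _ ζ hζ t s ht y f t₀ u r π hB hFrm hu0 hf hfin e c hRt hDcl D0 ψ w hD0 hψ
  have : Fact (Nat.Prime 2) := ⟨Nat.prime_two⟩
  have hRt' : Rt (twi D0 e) := rt_twi hRt hD0
  have hL := fun v => hLCP F (twi D0 e) hRt' v
  have hRr := fun φ => hRLC F (twi D0 e) hRt' φ
  have hLoc : LocR y (fun v => AX v (twi D0 e)) (fun φ => RX φ (twi D0 e)) :=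
    { fin :=
        { ne := fun v a b _ h => ⟨h.1, h.2.1⟩
          mul := fun v a b a' b' _ h h' => (hL v).1 a b a' b' h h'
          pow := fun v a b _ ha hb => (hL v).2.2.2 a b (Or.inl ⟨ha, hb⟩) }
      rne := fun φ a b h => ⟨h.1, h.2.1⟩
      rmul := fun φ a b a' b' h h' => (hRr φ).1 a b a' b' h h'
      rpos := fun φ a b h h' => (hRr φ).2.1 a b h h' }
  obtain ⟨𝓛, hMem⟩ := hSBM F ζ hζ y f u r π (gs t₀) hB (fun v => AX v (twi D0 e)) (fun φ => RX φ (twi D0 e)) hLoc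
  obtain ⟨hSym, hnd, _⟩ := hDJS f t₀ c w 𝓛
  have n02 : -(df e 0 * df e 2) ≠ 0 := neg_ne_zero.2 (mul_ne_zero (df_ne hRt 0) (df_ne hRt 2))
  have n12 : df e 1 * df e 2 ≠ 0 := mul_ne_zero (df_ne hRt 1) (df_ne hRt 2)
  have e1 : -(D0 * df e 0 * (D0 * df e 2)) = D0 ^ 2 * (-(df e 0 * df e 2)) := by ring
  have e2 : D0 * df e 1 * (D0 * df e 2) = D0 ^ 2 * (df e 1 * df e 2) := by ring
  have hsing : ∀ z ∈ 𝓛, (djS t₀ c w 𝓛).q z = 0 := by
    refine hSNG F ζ hζ t s ht y f t₀ u r π hB hFrm hu0 hfin e c hRt hDcl (fun v => AX v (twi D0 e))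
      (fun φ => RX φ (twi D0 e)) hLoc ?_ ?_ 𝓛 hMem w
    · intro v a b _ hab
      have h1 := hISQ F ζ hζ t s ht (twi D0 e) hRt' v a b hab
      rw [df_twi, df_twi, df_twi, e1, e2, hb_sq hBAS ht v hab.1 hD0 n02, hb_sq hBAS ht v hab.2.1 hD0 n12] at h1
      exact h1
    · intro φ a b hab
      have h1 := hRSQ F ζ hζ t s ht (twi D0 e) hRt' φ a b hab
      rw [df_twi, df_twi, df_twi, e1, e2, hbr_sq ht φ hab.1 hD0 n02, hbr_sq ht φ hab.2.1 hD0 n12] at h1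
      exact h1
  refine ⟨𝓛, hMem, { toSym := hSym, nd := hnd, card := ?_, sing := hsing, tor := ?_ }⟩
  · show Nat.card 𝓛 = Nat.card U2 ^ Fintype.card (Fin f)
    have hU : Nat.card U2 = 4 := by
      rw [Nat.card_prod, Nat.card_zmod]
    rw [hU, Fintype.card_fin]
    refine le_antisymm (hCLE f t₀ c w 𝓛 hsing) ?_
    have h1 := hCGE F ζ hζ y f u r π (gs t₀) hB hfin (fun v => AX v (twi D0 e)) (fun φ => RX φ (twi D0 e)) hLoc 𝓛 hMem
      (fun v => dv 2 v + 2) (fun v _ => hIDE F v (twi D0 e) hRt') (fun φ => (hRr φ).2.2.2.2)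
    have h2 := sum_valR hB.two hfin (hVLR F).2.2
    rw [← hf] at h2
    have h3 : (4 : ℕ) ^ f = 2 ^ (2 * f) := by
      rw [pow_mul]
      norm_num
    rw [h3, h2]
    exact h1
  · intro x
    have e1 : (fun a b : Fin f => Classical.propDecidable (a = b)) = instDecidableEqFin f := Subsingleton.elim _ _
    rw [e1]
    exact hTRS F ζ hζ y f t₀ u r π hB hu0 e c hRt hDcl D0 ψ w hD0 hψ (fun v => AX v (twi D0 e))
      (fun φ => RX φ (twi D0 e)) (fun v a b _ h => (hL v).2.2.2 a b h) (fun φ a b h h' => (hRr φ).2.1 a b h h')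
      (fun φ l => (hRr φ).2.2.2.1 l)
      (fun φ a b a' b' h h1 h2 => (hRr φ).1 a b a' b' h ((hRr φ).2.1 a' b' h1 h2)) 𝓛 hMem x

end Pool.Agent.Q252.FG
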