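import Pool.Agent.Q154.FT.NEX
import Pool.Agent.Q283.FG.Stm4

/-!
# Project FG (helper283), job NEX (helper252): the Selmer group is finite. Adapted from `Pool.Agent.Q154.FT.nex`.
-/

set_option autoImplicit false

namespace Pool.Agent.Q252.FG

open NumberField IsDedekindDomain Finset
open Pool.Agent.Q7.LK
open Pool.Agent.Q283.LQ (Sm)
open Pool.Agent.Q283.FT (U2 om crv Rt twi df Cov HasN2 AX Gd LocP Dcl)
open Pool.Agent.Q283.FG
open Pool.Agent.Q26.EN (exists_place)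

theorem nex (hBAS : Pool.Agent.Q7.LK.S_BAS) (hHIL : Pool.Agent.Q283.FG.S_HIL) (hBSE : Pool.Agent.Q283.FG.S_BSE)
    (hGDS : Pool.Agent.Q283.FT.S_GDS) (hGDU : Pool.Agent.Q283.FG.S_GDU) (hLCP : Pool.Agent.Q283.FG.S_LCP)
    (hRLC : Pool.Agent.Q283.FG.S_RLC) : Pool.Agent.Q283.FG.S_NEX := by
  intro F _ _ e hR
  have hζ : IsPrimitiveRoot (-1 : F) 2 := IsPrimitiveRoot.neg_one 0 (by norm_num)
  obtain ⟨t, s, hts⟩ := hHIL F (-1) hζ
  obtain ⟨y0, hy0⟩ := hBSE F (-1) hζ t s hts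
  obtain ⟨y1, hy1⟩ := hGDS F e hR
  obtain ⟨f, u, r, π, g, hB, -⟩ := hy0 (max y0 y1) (le_max_left _ _)
  have hgd := hy1 (max y0 y1) (le_max_right _ _)
  have hne : ∀ a b : F, SR e a b → a ≠ 0 ∧ b ≠ 0 := by
    intro a b h
    obtain ⟨v⟩ := exists_place F
    exact ⟨(h.1 v).1, (h.1 v).2.1⟩
  have h1L : ∀ v : HeightOneSpectrum (𝓞 F), Lpw 2 v (1 : F) := fun v => Pool.Agent.Q14.LK.lpw_one hBAS v
  have htw : twi (1 : F) e = e := by
    funext l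
    show 1 * e l = e l
    rw [one_mul]
  refine Pool.Agent.Q154.FT.hasN2_of_group (SR e) hB.ue hne ?_ ?_ ?_ hB.ind ?_
  · refine ⟨fun v => (hLCP F e hR v).2.2.2 1 1 (Or.inl ⟨h1L v, h1L v⟩), fun φ => ?_⟩
    refine (hRLC F e hR φ).2.1 1 1 ?_ ?_ <;> rw [map_one] <;> exact one_pos
  · intro a b a' b' h h'
    exact ⟨fun v => (hLCP F e hR v).1 a b a' b' (h.1 v) (h'.1 v),
      fun φ => (hRLC F e hR φ).1 a b a' b' (h.2 φ) (h'.2 φ)⟩
  · intro a b s t h hs ht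
    refine ⟨fun v => (hLCP F e hR v).2.1 a b (s ^ 2) (t ^ 2) ((hBAS 2 F v).2.2.1 s hs)
      ((hBAS 2 F v).2.2.1 t ht) (h.1 v), fun φ => ?_⟩
    refine (hRLC F e hR φ).1 a b (s ^ 2) (t ^ 2) (h.2 φ) ((hRLC F e hR φ).2.1 _ _ ?_ ?_)
    · rw [map_pow]
      have h1 : φ s ≠ 0 := (map_ne_zero φ).2 hs
      positivity
    · rw [map_pow]
      have h1 : φ t ≠ 0 := (map_ne_zero φ).2 ht
      positivity
  · intro a b h
    obtain ⟨ha0, hb0⟩ := hne a b h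
    have hv : ∀ v : HeightOneSpectrum (𝓞 F), ¬ Sm (max y0 y1) v → vl 2 v a = 0 ∧ vl 2 v b = 0 := by
      intro v hv
      have h1 : vl 2 v (1 : F) = 0 := Pool.Agent.Q14.LK.vl_one hBAS v
      have h2 := hGDU F v e hR (hgd v hv) 1 a b one_ne_zero ha0 hb0 h1
      rw [htw] at h2
      exact h2.1 (h.1 v)
    obtain ⟨c, hc⟩ := hB.full a ha0 fun v hv' => (hv v hv').1
    obtain ⟨c', hc'⟩ := hB.full b hb0 fun v hv' => (hv v hv').2
    exact ⟨c, c', hc, hc'⟩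

end Pool.Agent.Q252.FG
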