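import Pool.Agent.Q283.FG.Stm2
import Pool.Agent.Q283.FT.Stm2
import Pool.Agent.Q44.JQ.M.Low

/-!
# Project FG (helper283), part TBL (helper252): the joint law for the tables, summation over the labels. Adapted from `Pool.Agent.Q96.FT.tbl`.
-/

set_option autoImplicit false

namespace Pool.Agent.Q252.FG

open Filter Topology Finset Module
open Pool.Agent.Q283.FG
open Pool.Agent.Q283.FT (U2)
open Pool.Agent.Q7.LK (Tab Mt)
open Q44.JQ (lawc)
open scoped Classical

theorem lawc_le_one (c : ZMod 2) (e : ℕ) : lawc c e ≤ 1 := by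
  have h := sum_le_hasSum {e} (fun i _ => Q44.JQ.M.lawc_nonneg c i) (Q44.JQ.M.hasSum_lawc c)
  rwa [sum_singleton] at h

/-- summation over a fibration of a product -/
theorem card_fib {α β : Type} [Fintype α] [Fintype β] (P : α → Prop) (Q : α × β → Prop)
    [DecidablePred P] [DecidablePred fun τ : α × β => P τ.1 ∧ Q τ]
    [∀ a, DecidablePred fun b : β => Q (a, b)] :
    ((univ.filter fun τ : α × β => P τ.1 ∧ Q τ).card : ℝ) =
      ∑ a ∈ univ.filter (fun a : α => P a), ((univ.filter fun b : β => Q (a, b)).card : ℝ) := by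
  have h : (univ.filter fun τ : α × β => P τ.1 ∧ Q τ).card =
      ∑ a ∈ univ.filter (fun a : α => P a), (univ.filter fun b : β => Q (a, b)).card := by
    rw [Finset.card_eq_sum_card_fiberwise (f := fun τ : α × β => τ.1)
      (t := univ.filter (fun a : α => P a))]
    · refine sum_congr rfl fun a ha => ?_
      have ha' : P a := (mem_filter.1 ha).2
      refine Finset.card_bij (fun τ _ => τ.2) ?_ ?_ ?_
      · intro τ hτ
        rw [mem_filter, mem_filter] at hτ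
        obtain ⟨⟨_, _, h2⟩, h3⟩ := hτ
        rw [mem_filter]
        refine ⟨mem_univ _, ?_⟩
        have : (a, τ.2) = τ := by rw [← h3]
        rw [this]
        exact h2
      · intro τ hτ τ' hτ' hh
        rw [mem_filter] at hτ hτ'
        exact Prod.ext (hτ.2.trans hτ'.2.symm) hh
      · intro b hb
        rw [mem_filter] at hb
        refine ⟨(a, b), ?_, rfl⟩
        rw [mem_filter, mem_filter]
        exact ⟨⟨mem_univ _, ha', hb.2⟩, rfl⟩
    · intro τ hτ
      have hτ' := (mem_filter.1 hτ).2.1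
      exact mem_coe.2 (mem_filter.2 ⟨mem_univ _, hτ'⟩)
  rw [h]
  push_cast
  rfl

theorem tbl (hLBS : Pool.Agent.Q283.FT.S_LBS) (hTBF : Pool.Agent.Q283.FG.S_TBF) : Pool.Agent.Q283.FG.S_TBL := by
  intro f κ _ t₀ D ρ hs₀ hok hadj r ε hε
  obtain ⟨R, hR⟩ := hTBF f κ t₀ D ρ hs₀ hok hadj r (ε / 2) (by positivity)
  obtain ⟨k0, hk0⟩ := hLBS f R (ε / 2) (by positivity)
  refine ⟨k0, fun k hk => ?_⟩
  have hb := hk0 k hk ρ
  set L : ℝ := ∏ l, lawc ((finrank (ZMod 2) (D l).pm : ℕ) : ZMod 2) (r l) with hL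
  have hL0 : 0 ≤ L := prod_nonneg fun l _ => Q44.JQ.M.lawc_nonneg _ _
  have hL1 : L ≤ 1 := prod_le_one (fun l _ => Q44.JQ.M.lawc_nonneg _ _) fun l _ => lawc_le_one _ _
  set T : Finset (Fin k → Fin f → ZMod 2) :=
    univ.filter (fun φ : Fin k → Fin f → ZMod 2 => ∑ j, (1 : ZMod 2) • φ j = ρ) with hT
  set Bad : Finset (Fin k → Fin f → ZMod 2) := (univ.filter fun φ : Fin k → Fin f → ZMod 2 =>
    ∑ j, (1 : ZMod 2) • φ j = ρ ∧ ∃ χ, (univ.filter fun i => φ i = χ).card < R) with hBad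
  set N : ℝ := (Fintype.card ({x : Fin k × Fin k // x.1 < x.2} → ZMod 2) : ℝ) with hN
  have hN0 : 0 ≤ N := Nat.cast_nonneg _
  let A : (Fin k → Fin f → ZMod 2) → ℝ := fun φ =>
    ((univ.filter fun t : {x : Fin k × Fin k // x.1 < x.2} → ZMod 2 =>
      ∀ l, nSelG (D l) (φ, t) = 4 * 2 ^ r l).card : ℝ)
  have e1 : ((univ.filter fun τ : Tab 2 f k =>
      ∑ j, (1 : ZMod 2) • τ.1 j = ρ ∧ ∀ l, nSelG (D l) τ = 4 * 2 ^ r l).card : ℝ) = ∑ φ ∈ T, A φ :=
    card_fib (fun φ : Fin k → Fin f → ZMod 2 => ∑ j, (1 : ZMod 2) • φ j = ρ)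
      (fun τ : Tab 2 f k => ∀ l, nSelG (D l) τ = 4 * 2 ^ r l)
  have e2 : ((univ.filter fun τ : Tab 2 f k => ∑ j, (1 : ZMod 2) • τ.1 j = ρ).card : ℝ) =
      (T.card : ℝ) * N := by
    have h : ((univ.filter fun τ : Tab 2 f k => ∑ j, (1 : ZMod 2) • τ.1 j = ρ ∧ True).card : ℝ) =
        ∑ φ ∈ T, ((univ.filter fun _ : {x : Fin k × Fin k // x.1 < x.2} → ZMod 2 => True).card : ℝ) :=
      card_fib (fun φ : Fin k → Fin f → ZMod 2 => ∑ j, (1 : ZMod 2) • φ j = ρ)
      (fun τ : Tab 2 f k => True)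
    have h2 : (univ.filter fun τ : Tab 2 f k => ∑ j, (1 : ZMod 2) • τ.1 j = ρ).card =
        (univ.filter fun τ : Tab 2 f k => ∑ j, (1 : ZMod 2) • τ.1 j = ρ ∧ True).card := by
      refine congrArg Finset.card (Finset.ext fun τ => ?_)
      simp only [mem_filter, and_true]
    rw [h2, h]
    simp only [filter_true, card_univ, sum_const, nsmul_eq_mul]
    rfl
  rw [e1, e2]
  have hBT : Bad ⊆ T := by
    intro φ hφ
    rw [hBad, mem_filter] at hφ
    rw [hT, mem_filter]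
    exact ⟨mem_univ _, hφ.2.1⟩
  have hA0 : ∀ φ, 0 ≤ A φ := fun φ => Nat.cast_nonneg _
  have hA1 : ∀ φ, A φ ≤ N := fun φ => by
    have : (univ.filter fun t : {x : Fin k × Fin k // x.1 < x.2} → ZMod 2 =>
      ∀ l, nSelG (D l) (φ, t) = 4 * 2 ^ r l).card ≤
        Fintype.card ({x : Fin k × Fin k // x.1 < x.2} → ZMod 2) := Finset.card_le_univ _
    exact Nat.cast_le.2 this
  have hg : ∀ φ ∈ T \ Bad, |A φ - L * N| ≤ ε / 2 * N := by
    intro φ hφ
    rw [Finset.mem_sdiff] at hφ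
    have h1 : ∑ j, (1 : ZMod 2) • φ j = ρ := (mem_filter.1 hφ.1).2
    have h2 : ∀ χ, R ≤ (univ.filter fun i => φ i = χ).card := by
      intro χ
      by_contra hlt
      push Not at hlt
      exact hφ.2 (mem_filter.2 ⟨mem_univ _, h1, χ, hlt⟩)
    have h3 : ∑ j, φ j = ρ := by
      rw [← h1]
      exact sum_congr rfl fun j _ => (one_smul _ _).symm
    exact hR k φ h3 h2
  have hbd : ∀ φ ∈ Bad, |A φ - L * N| ≤ N := by
    intro φ _
    rw [abs_le]
    have h1 : L * N ≤ N := by nlinarith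
    have h2 : 0 ≤ L * N := mul_nonneg hL0 hN0
    exact ⟨by linarith [hA0 φ], by linarith [hA1 φ]⟩
  have hsum : ∑ φ ∈ T, A φ - L * ((T.card : ℝ) * N) = ∑ φ ∈ T, (A φ - L * N) := by
    rw [sum_sub_distrib, sum_const, nsmul_eq_mul]
    ring
  rw [hsum]
  refine (abs_sum_le_sum_abs _ _).trans ?_
  rw [← sum_sdiff hBT]
  have s1 : ∑ φ ∈ T \ Bad, |A φ - L * N| ≤ (T.card : ℝ) * (ε / 2 * N) := by
    refine (sum_le_sum hg).trans ?_
    rw [sum_const, nsmul_eq_mul]
    have : ((T \ Bad).card : ℝ) ≤ (T.card : ℝ) := by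
      exact_mod_cast card_le_card sdiff_subset
    exact mul_le_mul_of_nonneg_right this (by positivity)
  have s2 : ∑ φ ∈ Bad, |A φ - L * N| ≤ (ε / 2 * (T.card : ℝ)) * N := by
    refine (sum_le_sum hbd).trans ?_
    rw [sum_const, nsmul_eq_mul]
    exact mul_le_mul_of_nonneg_right hb hN0
  calc ∑ φ ∈ T \ Bad, |A φ - L * N| + ∑ φ ∈ Bad, |A φ - L * N|
      ≤ (T.card : ℝ) * (ε / 2 * N) + (ε / 2 * (T.card : ℝ)) * N := add_le_add s1 s2
    _ = ε * ((T.card : ℝ) * N) := by ring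

end Pool.Agent.Q252.FG
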