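import Pool.Agent.Q283.FG.Stm2
import Pool.Agent.Q182.JQ.PROB
import Pool.Agent.Q299.JQ.ORT

/-!
# Project FG (helper283), job TUB (helper252): the mean number of the solutions is bounded for all labels,
with the sign. Adapted from `Pool.Agent.Q65.FT.tub`.
-/

set_option autoImplicit false

namespace Pool.Agent.Q252.FG.TU

open Finset Module
open Pool.Agent.Q283.FG
open Pool.Agent.Q283.FT (U2 om)
open Q44.JQ (Dj Sel rowL sg dif)
open Pool.Agent.Q7.LK
open scoped Classical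

noncomputable section

theorem om_apply (x y : U2) : om x y = x.1 * y.2 + x.2 * y.1 := rfl

theorem om_alt (x : U2) : om x x = 0 := by
  rw [om_apply]
  obtain ⟨a, b⟩ := x
  revert a b
  decide

theorem om_nd (x : U2) (h : ∀ y, om x y = 0) : x = 0 := by
  have h1 := h (0, 1)
  have h2 := h (1, 0)
  rw [om_apply] at h1 h2
  simp only [mul_one, mul_zero, add_zero, zero_add] at h1 h2
  exact Prod.ext h1 h2

/-- the pairs -/
abbrev Pr (k : ℕ) : Type := {x : Fin k × Fin k // x.1 < x.2}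

/-- one half of the symbols -/
def hh {k : ℕ} (t : Pr k → ZMod 2) (i j : Fin k) : ZMod 2 := if h : i < j then t ⟨(i, j), h⟩ else 0

/-- the sign -/
def sn {f k : ℕ} (t₀ : Fin f) (φ : Fin k → Fin f → ZMod 2) (i j : Fin k) : ZMod 2 :=
  if i < j then φ j t₀ * φ i t₀ else 0

/-- the symmetric part -/
def NT {k : ℕ} (t : Pr k → ZMod 2) (p q : Fin k) : ZMod 2 := hh t p q + hh t q p

theorem NG_eq {f k : ℕ} (t₀ : Fin f) (φ : Fin k → Fin f → ZMod 2) (t : Pr k → ZMod 2) (p q : Fin k) :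
    NG t₀ (φ, t) p q = NT t p q + sn t₀ φ p q := by
  unfold NG NT Mt hh sn gs
  rcases lt_trichotomy p q with h | h | h
  · rw [dif_neg (not_lt_of_gt h), dif_pos h, dif_pos h, dif_neg (not_lt_of_gt h), if_pos h, add_zero]
  · subst h
    simp
  · rw [dif_pos h, dif_neg (not_lt_of_gt h), dif_pos h, if_neg (not_lt_of_gt h), zero_add, add_zero]

theorem sum_hh {k : ℕ} (t : Pr k → ZMod 2) (g : Fin k → Fin k → ZMod 2) :
    ∑ i, ∑ j, hh t i j * g i j = ∑ x : Pr k, t x * g x.1.1 x.1.2 := by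
  have h1 : ∀ x : Pr k, t x * g x.1.1 x.1.2 =
      (fun x : Fin k × Fin k => hh t x.1 x.2 * g x.1 x.2) x.1 := by
    intro x
    have h2 : hh t x.1.1 x.1.2 = t x := by
      unfold hh
      rw [dif_pos x.2]
    show _ = hh t x.1.1 x.1.2 * g x.1.1 x.1.2
    rw [h2]
  rw [Finset.sum_congr rfl fun x _ => h1 x, ← Fintype.sum_prod_type' (fun i j => hh t i j * g i j)]
  rw [← Finset.sum_subtype (univ.filter fun x : Fin k × Fin k => x.1 < x.2) (p := fun x => x.1 < x.2)
    (fun x => by simp) (fun x : Fin k × Fin k => hh t x.1 x.2 * g x.1 x.2)]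
  symm
  refine Finset.sum_subset (subset_univ _) fun x _ hx => ?_
  have h3 : hh t x.1 x.2 = 0 := by
    unfold hh
    rw [dif_neg]
    intro h
    exact hx (mem_filter.2 ⟨mem_univ _, h⟩)
  rw [h3, zero_mul]

theorem sum_NT {k : ℕ} (t : Pr k → ZMod 2) (g : Fin k → Fin k → ZMod 2) :
    ∑ p, ∑ q, NT t p q * g p q = ∑ x : Pr k, t x * (g x.1.1 x.1.2 + g x.1.2 x.1.1) := by
  have h1 : ∑ p, ∑ q, NT t p q * g p q = ∑ p, ∑ q, hh t p q * (g p q + g q p) := by
    simp only [NT, add_mul, mul_add, sum_add_distrib]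
    refine congrArg₂ (· + ·) rfl ?_
    exact Finset.sum_comm
  rw [h1, sum_hh t fun p q => g p q + g q p]

/-- the part of the row which does not depend on the symbols -/
def cst {f k : ℕ} (D : Dj (Fin f) U2) (φ : Fin k → Fin f → ZMod 2) (e : (Fin f → U2) × (Fin k → U2))
    (p : Fin k) : U2 := D.T (φ p) (e.2 p) + ∑ s, φ p s • e.1 s + ∑ q, sn D.s₀ φ p q • (e.2 q + e.2 p)

theorem row_eq {f k : ℕ} (D : Dj (Fin f) U2) (φ : Fin k → Fin f → ZMod 2) (t : Pr k → ZMod 2)
    (e : (Fin f → U2) × (Fin k → U2)) (p : Fin k) :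
    rowL D (NG D.s₀ (φ, t)) φ e p = cst D φ e p + ∑ q, NT t p q • (e.2 q + e.2 p) := by
  show ∑ q, NG D.s₀ (φ, t) p q • (e.2 q + e.2 p) + D.T (φ p) (e.2 p) + ∑ s, φ p s • e.1 s = _
  simp only [NG_eq, add_smul, sum_add_distrib]
  unfold cst
  abel

theorem expo {f k : ℕ} (D : Dj (Fin f) U2) (φ : Fin k → Fin f → ZMod 2) (t : Pr k → ZMod 2)
    (e : (Fin f → U2) × (Fin k → U2)) (W : Fin k → U2) :
    ∑ p, om (W p) (rowL D (NG D.s₀ (φ, t)) φ e p) = ∑ p, om (W p) (cst D φ e p) +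
      ∑ x : Pr k, t x * om (W x.1.1 + W x.1.2) (e.2 x.1.1 + e.2 x.1.2) := by
  have h1 : ∑ p, om (W p) (rowL D (NG D.s₀ (φ, t)) φ e p) = ∑ p, om (W p) (cst D φ e p) +
      ∑ p, ∑ q, NT t p q * om (W p) (e.2 q + e.2 p) := by
    rw [← sum_add_distrib]
    refine Finset.sum_congr rfl fun p _ => ?_
    rw [row_eq, map_add, map_sum]
    simp only [map_smul, smul_eq_mul]
  rw [h1, sum_NT t fun p q => om (W p) (e.2 q + e.2 p)]
  refine congrArg₂ (· + ·) rfl (Finset.sum_congr rfl fun x _ => ?_)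
  rw [map_add om, LinearMap.add_apply, add_comm (e.2 x.1.2) (e.2 x.1.1)]

/-- the number of the symbols for which `e` satisfies the rows -/
theorem prob {f k : ℕ} (D : Dj (Fin f) U2) (φ : Fin k → Fin f → ZMod 2) (e : (Fin f → U2) × (Fin k → U2)) :
    (((univ : Finset (Pr k → ZMod 2)).filter fun t => ∀ p, rowL D (NG D.s₀ (φ, t)) φ e p = 0).card : ℝ) * 4 ^ k ≤
      2 ^ Fintype.card (Pr k) *
        (((univ : Finset (Fin k → U2)).filter fun W => ∀ x : Pr k, om (W x.1.1 + W x.1.2) (e.2 x.1.1 + e.2 x.1.2) = 0).card : ℝ) := by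
  have hV : (Fintype.card U2 : ℝ) = 4 := by
    have : Fintype.card U2 = 4 := by
      rw [Fintype.card_prod, ZMod.card]
    rw [this]
    norm_num
  have h1 : ∀ t : Pr k → ZMod 2, ∑ W : Fin k → U2, sg (∑ p, om (W p) (rowL D (NG D.s₀ (φ, t)) φ e p)) =
      if ∀ p, rowL D (NG D.s₀ (φ, t)) φ e p = 0 then (4 : ℝ) ^ k else 0 := by
    intro t
    rw [Q182.JQ.sum_pi fun p v => om v (rowL D (NG D.s₀ (φ, t)) φ e p)]
    simp only [Q182.JQ.sum_sg om om_alt om_nd]
    by_cases hc : ∀ p, rowL D (NG D.s₀ (φ, t)) φ e p = 0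
    · rw [if_pos hc]
      refine (Finset.prod_congr rfl fun p _ => if_pos (hc p)).trans ?_
      rw [prod_const, hV, card_univ, Fintype.card_fin]
    · rw [if_neg hc]
      push Not at hc
      obtain ⟨p, hp⟩ := hc
      exact Finset.prod_eq_zero (mem_univ p) (if_neg hp)
  have h2 : (((univ : Finset (Pr k → ZMod 2)).filter fun t => ∀ p, rowL D (NG D.s₀ (φ, t)) φ e p = 0).card : ℝ) * 4 ^ k =
      ∑ t : Pr k → ZMod 2, ∑ W : Fin k → U2, sg (∑ p, om (W p) (rowL D (NG D.s₀ (φ, t)) φ e p)) := by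
    simp only [h1]
    rw [← Finset.sum_filter, Finset.sum_const, nsmul_eq_mul]
  rw [h2, Finset.sum_comm]
  have h3 : ∀ W : Fin k → U2, ∑ t : Pr k → ZMod 2, sg (∑ p, om (W p) (rowL D (NG D.s₀ (φ, t)) φ e p)) ≤
      if ∀ x : Pr k, om (W x.1.1 + W x.1.2) (e.2 x.1.1 + e.2 x.1.2) = 0 then (2 : ℝ) ^ Fintype.card (Pr k) else 0 := by
    intro W
    have h4 : ∀ t : Pr k → ZMod 2, sg (∑ p, om (W p) (rowL D (NG D.s₀ (φ, t)) φ e p)) =
        sg (∑ p, om (W p) (cst D φ e p)) *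
          sg (∑ x : Pr k, t x * om (W x.1.1 + W x.1.2) (e.2 x.1.1 + e.2 x.1.2)) := by
      intro t
      rw [expo, Q182.JQ.sg_add]
    rw [Finset.sum_congr rfl fun t _ => h4 t, ← Finset.mul_sum,
      Q182.JQ.sum_alpha fun x : Pr k => om (W x.1.1 + W x.1.2) (e.2 x.1.1 + e.2 x.1.2)]
    split_ifs with hc
    · have h5 : sg (∑ p, om (W p) (cst D φ e p)) ≤ 1 := by
        unfold sg
        split_ifs <;> norm_num
      calc sg (∑ p, om (W p) (cst D φ e p)) * (2 : ℝ) ^ Fintype.card (Pr k) ≤ 1 * (2 : ℝ) ^ Fintype.card (Pr k) :=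
            mul_le_mul_of_nonneg_right h5 (by positivity)
        _ = _ := one_mul _
    · rw [mul_zero]
  refine (Finset.sum_le_sum fun W _ => h3 W).trans (le_of_eq ?_)
  rw [← Finset.sum_filter, Finset.sum_const, nsmul_eq_mul, mul_comm]

/-- the number of the unlinked families -/
theorem unl (k : ℕ) :
    (((univ : Finset (Fin k → U2 × U2)).filter fun Z => ∀ i j, om (Z i + Z j).2 (Z i + Z j).1 = 0).card : ℝ) ≤
      (Fintype.card (Submodule (ZMod 2) (U2 × U2)) : ℝ) * (16 * 4 ^ k) := by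
  set T : Submodule (ZMod 2) (U2 × U2) → Finset (Fin k → U2 × U2) := fun Λ =>
    univ.image (fun p : (U2 × U2) × (Fin k → Λ) => fun i => ((p.2 i : Λ) : U2 × U2) + p.1) with hT
  set N : Finset (Submodule (ZMod 2) (U2 × U2)) := univ.filter (fun Λ => Nat.card Λ ≤ 4) with hN
  have h1 : ((univ : Finset (Fin k → U2 × U2)).filter fun Z => ∀ i j, om (Z i + Z j).2 (Z i + Z j).1 = 0) ⊆
      N.biUnion T := by
    intro Z hZ
    rw [mem_filter] at hZ
    rw [mem_biUnion]
    have h5 := (Pool.Agent.Q299.JQ.t_ORT U2 (Fin k) om om_alt om_nd Z hZ.2).2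
    have h6 : Nat.card U2 = 4 := by
      rw [Nat.card_eq_fintype_card, Fintype.card_prod, ZMod.card]
    refine ⟨dif Z, mem_filter.2 ⟨mem_univ _, by rw [← h6]; exact h5⟩, ?_⟩
    rw [hT]
    simp only
    rw [mem_image]
    rcases isEmpty_or_nonempty (Fin k) with hι | ⟨⟨i₀⟩⟩
    · exact ⟨(0, fun i => isEmptyElim i), mem_univ _, funext fun i => isEmptyElim i⟩
    · refine ⟨(Z i₀, fun i => ⟨Z i + Z i₀, Submodule.subset_span ⟨(i, i₀), rfl⟩⟩), mem_univ _, ?_⟩
      funext i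
      simp only
      have h2 : Z i₀ + Z i₀ = 0 := ZModModule.add_self _
      rw [add_assoc, h2, add_zero]
  have h2 : ∀ Λ ∈ N, ((T Λ).card : ℝ) ≤ 16 * 4 ^ k := by
    intro Λ hΛ
    have h3 : Nat.card Λ ≤ 4 := (mem_filter.1 hΛ).2
    have h4 : (T Λ).card ≤ Fintype.card ((U2 × U2) × (Fin k → Λ)) := by
      rw [hT]
      exact card_image_le.trans (le_of_eq rfl)
    have h5 : Fintype.card ((U2 × U2) × (Fin k → Λ)) = 16 * Nat.card Λ ^ k := by
      rw [Fintype.card_prod, Fintype.card_prod, Fintype.card_fun, Nat.card_eq_fintype_card,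
        Fintype.card_prod, ZMod.card, Fintype.card_fin]
    rw [h5] at h4
    have h6 : (T Λ).card ≤ 16 * 4 ^ k := h4.trans (Nat.mul_le_mul_left _ (Nat.pow_le_pow_left h3 k))
    exact_mod_cast h6
  have h3 : (((univ : Finset (Fin k → U2 × U2)).filter fun Z =>
      ∀ i j, om (Z i + Z j).2 (Z i + Z j).1 = 0).card : ℝ) ≤ ∑ Λ ∈ N, ((T Λ).card : ℝ) := by
    exact_mod_cast (card_le_card h1).trans card_biUnion_le
  have h4 := Finset.sum_le_card_nsmul _ _ _ h2
  rw [nsmul_eq_mul] at h4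
  have h5 : (N.card : ℝ) ≤ (Fintype.card (Submodule (ZMod 2) (U2 × U2)) : ℝ) := by
    exact_mod_cast Finset.card_le_univ N
  exact h3.trans (h4.trans (mul_le_mul_of_nonneg_right h5 (by positivity)))

theorem nSelG_le {f k : ℕ} (D : Dj (Fin f) U2) (φ : Fin k → Fin f → ZMod 2) (t : Pr k → ZMod 2) :
    nSelG D (φ, t) ≤ ((univ : Finset ((Fin f → U2) × (Fin k → U2))).filter fun e =>
      ∀ p, rowL D (NG D.s₀ (φ, t)) φ e p = 0).card := by
  unfold nSelG
  rw [Nat.card_eq_fintype_card, Fintype.card_subtype]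
  refine card_le_card fun e he => ?_
  rw [mem_filter] at he ⊢
  refine ⟨mem_univ _, fun p => ?_⟩
  have h1 := he.2
  unfold Sel at h1
  have h2 := (Submodule.mem_inf.1 h1).2
  rw [LinearMap.mem_ker] at h2
  exact congrFun h2 p

/-- TUB -/
theorem tub : Pool.Agent.Q283.FG.S_TUB := by
  intro f
  refine ⟨4 ^ f * ((Fintype.card (Submodule (ZMod 2) (U2 × U2)) : ℝ) * 16), ?_⟩
  intro t₀ c w 𝓛 k φ
  set D := djS t₀ c w 𝓛 with hD
  set K : ℝ := (Fintype.card (Submodule (ZMod 2) (U2 × U2)) : ℝ) with hK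
  have h4k : (0 : ℝ) < 4 ^ k := by positivity
  have hN : (Fintype.card (Pr k → ZMod 2) : ℝ) = 2 ^ Fintype.card (Pr k) := by
    rw [Fintype.card_fun, ZMod.card]
    push_cast
    rfl
  have h1 : ∑ t : Pr k → ZMod 2, (nSelG D (φ, t) : ℝ) ≤
      ∑ e : (Fin f → U2) × (Fin k → U2),
        (((univ : Finset (Pr k → ZMod 2)).filter fun t => ∀ p, rowL D (NG D.s₀ (φ, t)) φ e p = 0).card : ℝ) := by
    have h2 : ∑ t : Pr k → ZMod 2, (nSelG D (φ, t) : ℝ) ≤ ∑ t : Pr k → ZMod 2,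
        ((((univ : Finset ((Fin f → U2) × (Fin k → U2))).filter fun e =>
          ∀ p, rowL D (NG D.s₀ (φ, t)) φ e p = 0).card : ℕ) : ℝ) :=
      Finset.sum_le_sum fun t _ => by exact_mod_cast nSelG_le D φ t
    refine h2.trans (le_of_eq ?_)
    simp only [Finset.card_filter]
    push_cast
    exact Finset.sum_comm
  have h2 : (∑ e : (Fin f → U2) × (Fin k → U2),
        (((univ : Finset (Pr k → ZMod 2)).filter fun t => ∀ p, rowL D (NG D.s₀ (φ, t)) φ e p = 0).card : ℝ)) * 4 ^ k ≤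
      2 ^ Fintype.card (Pr k) * (4 ^ f * (K * (16 * 4 ^ k))) := by
    rw [Finset.sum_mul]
    refine (Finset.sum_le_sum fun e _ => prob D φ e).trans ?_
    rw [← Finset.mul_sum]
    refine mul_le_mul_of_nonneg_left ?_ (by positivity)
    rw [Fintype.sum_prod_type]
    simp only
    rw [Finset.sum_const, nsmul_eq_mul, card_univ, Fintype.card_fun, Fintype.card_fin, Fintype.card_prod, ZMod.card]
    have h3 : ∑ x : Fin k → U2, (((univ : Finset (Fin k → U2)).filter fun W =>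
        ∀ y : Pr k, om (W y.1.1 + W y.1.2) (x y.1.1 + x y.1.2) = 0).card : ℝ) ≤ K * (16 * 4 ^ k) := by
      refine le_trans ?_ (unl k)
      have h4 : ∑ x : Fin k → U2, ((univ : Finset (Fin k → U2)).filter fun W =>
          ∀ y : Pr k, om (W y.1.1 + W y.1.2) (x y.1.1 + x y.1.2) = 0).card ≤
          ((univ : Finset (Fin k → U2 × U2)).filter fun Z => ∀ i j, om (Z i + Z j).2 (Z i + Z j).1 = 0).card := by
        rw [← Finset.card_sigma]
        refine Finset.card_le_card_of_injOn (fun s i => (s.1 i, s.2 i)) ?_ ?_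
        · intro s hs
          rw [Finset.mem_coe, Finset.mem_sigma, mem_filter] at hs
          rw [Finset.mem_coe, mem_filter]
          refine ⟨mem_univ _, fun i j => ?_⟩
          show om (s.2 i + s.2 j) (s.1 i + s.1 j) = 0
          rcases lt_trichotomy i j with h | h | h
          · exact hs.2.2 ⟨(i, j), h⟩
          · subst h
            rw [ZModModule.add_self (s.2 i), map_zero, LinearMap.zero_apply]
          · rw [add_comm (s.2 i), add_comm (s.1 i)]
            exact hs.2.2 ⟨(j, i), h⟩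
        · rintro ⟨x, W⟩ - ⟨x', W'⟩ - h
          have h5 : x = x' := funext fun i => congrArg Prod.fst (congrFun h i)
          have h6 : W = W' := funext fun i => congrArg Prod.snd (congrFun h i)
          subst h5 h6
          rfl
      exact_mod_cast h4
    refine (mul_le_mul_of_nonneg_left h3 (by positivity)).trans (le_of_eq ?_)
    norm_num
  have h3 : (∑ t : Pr k → ZMod 2, (nSelG D (φ, t) : ℝ)) * 4 ^ k ≤
      (4 ^ f * (K * 16) * (Fintype.card (Pr k → ZMod 2) : ℝ)) * 4 ^ k := by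
    refine (mul_le_mul_of_nonneg_right h1 h4k.le).trans (h2.trans (le_of_eq ?_))
    rw [hN]
    ring
  exact le_of_mul_le_mul_right h3 h4k

end

end Pool.Agent.Q252.FG.TU

namespace Pool.Agent.Q252.FG

theorem tub : Pool.Agent.Q283.FG.S_TUB := TU.tub

end Pool.Agent.Q252.FG
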